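import Mathlib
import Pool.Agent.Helper877.QI.Statement
import Pool.Agent.Helper877.QI.Main

set_option autoImplicit false

open Pool.Agent.Helper877.QI

universe u v

namespace Pool.Agent.Results.MP_8d185c_al.NoIndependentBasis

/-- The free nilpotent groups of class 3 are torsion-free. -/
theorem torsionFree_freeNilpotent (ι : Type u) :
    TorsionFree (FreeGroup ι ⧸ (⊤ : Subgroup (FreeGroup ι)).lowerCentralSeries 3) :=
  (torsionFree_iff _).mpr fun n hn => tfq_N3 ι n hn

/-- Bases exist: the set of all true quasi-identities is one. -/
theorem isBasis_all (G : Type u) [Group G] : IsBasis.{u, v} G {σ | σ.Holds G} :=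
  ⟨fun _ h => h, fun _ _ _ => Iff.rfl⟩

/-- For every rank at least 2 (finite or infinite), the free group of that rank in the variety of
nilpotent groups of class at most 3, that is the quotient of the free group by the fourth term of
its lower central series (Mathlib numbers the terms from 0), has no independent basis of
quasi-identities in the class of torsion-free groups. -/
theorem result (ι : Type u) [Nontrivial ι] :
    ¬ ∃ S : Set QuasiId, IsIndependentBasis.{u, v}
      (FreeGroup ι ⧸ (⊤ : Subgroup (FreeGroup ι)).lowerCentralSeries 3) S :=
  main ι

end Pool.Agent.Results.MP_8d185c_al.NoIndependentBasis
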